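import Pool.Agent.V11146.Xor

set_option autoImplicit false

namespace Pool.Agent.Results.MP_e3e024_co.CubicFive

open Filter Asymptotics Pool.Agent.V11146.Xor

/-- `f 5 n k ≥ ⌊n/k⌋³` for all `k ≥ 3` and all `n`; hence for every `k ≥ 3` the sequence
`f 5 n k` is not `O(n²)`, the ratio `f 5 n k / n ^ e(5)` (with `e(5) = ⌊log₂ 6⌋ = 2`) is unbounded,
and the conjecture of Q1 (for every `l ≥ 1` there is `k₀` with `f l n k = Θ(n ^ ⌊log₂ (l+1)⌋)` for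
every fixed `k ≥ k₀`) is false. -/
theorem result :
    (∀ n k : ℕ, 3 ≤ k → (n / k) ^ 3 ≤ f 5 n k) ∧
    (∀ k : ℕ, 3 ≤ k →
      ¬ (fun n : ℕ => (f 5 n k : ℝ)) =O[atTop] (fun n : ℕ => (n : ℝ) ^ Nat.log 2 (5 + 1))) ∧
    ¬ (∀ l : ℕ, 1 ≤ l → ∃ k₀ : ℕ, ∀ k : ℕ, k₀ ≤ k →
      (fun n : ℕ => (f l n k : ℝ)) =Θ[atTop] (fun n : ℕ => (n : ℝ) ^ Nat.log 2 (l + 1))) := by
  have hlog : Nat.log 2 (5 + 1) = 2 := by
    rw [Nat.log_eq_iff] <;> norm_num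
  refine ⟨lower, ?_, ?_⟩
  · intro k hk
    rw [hlog]
    exact not_bigO k hk
  · intro h
    obtain ⟨k₀, hk₀⟩ := h 5 (by norm_num)
    have h1 := (hk₀ (max k₀ 3) (le_max_left _ _)).1
    rw [hlog] at h1
    exact not_bigO (max k₀ 3) (le_max_right _ _) h1

end Pool.Agent.Results.MP_e3e024_co.CubicFive
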